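import Pool.Agent.Helper20.IIC.Stmts

/-! # TRI: there are few trifurcations -/

namespace IIC

open Filter Topology Set MeasureTheory
open scoped BigOperators

section Abstract

variable {V : Type}

/-- connected without using `t` -/
def tri_C (h : V → V → Prop) (t : V) (x y : V) : Prop :=
  Relation.ReflTransGen (fun a b => h a b ∧ a ≠ t ∧ b ≠ t) x y

theorem tri_C_symm {h : V → V → Prop} (hs : ∀ a b, h a b → h b a) {t x y : V}
    (H : tri_C h t x y) : tri_C h t y x := by
  unfold tri_C at *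
  induction H with
  | refl => exact Relation.ReflTransGen.refl
  | tail _ hbc ih => exact Relation.ReflTransGen.head ⟨hs _ _ hbc.1, hbc.2.2, hbc.2.1⟩ ih

theorem tri_C_trans {h : V → V → Prop} {t x y z : V}
    (H : tri_C h t x y) (H' : tri_C h t y z) : tri_C h t x z :=
  Relation.ReflTransGen.trans H H'

theorem tri_C_self {h : V → V → Prop} {t y : V} (H : tri_C h t t y) : t = y := by
  rcases Relation.ReflTransGen.cases_head H with h1 | ⟨c, hc, _⟩
  · exact h1
  · exact absurd rfl hc.2.1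

theorem tri_mono {r r' : V → V → Prop} (hrr : ∀ a b, r a b → r' a b) {x y : V}
    (H : Relation.ReflTransGen r x y) : Relation.ReflTransGen r' x y := by
  induction H with
  | refl => exact Relation.ReflTransGen.refl
  | tail _ hbc ih => exact Relation.ReflTransGen.tail ih (hrr _ _ hbc)

theorem tri_C_mono {h : V → V → Prop} {t x y : V} (H : tri_C h t x y) :
    Relation.ReflTransGen h x y :=
  tri_mono (fun _ _ hab => hab.1) H

theorem tri_A {h : V → V → Prop} {t t' : V} (htt : t ≠ t') {x : V}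
    (H : Relation.ReflTransGen h x t) : tri_C h t x t' ∨ tri_C h t' x t := by
  induction H using Relation.ReflTransGen.head_induction_on with
  | refl => exact Or.inr Relation.ReflTransGen.refl
  | @head a b hab _ ih =>
    by_cases h1 : a = t
    · subst h1; exact Or.inr Relation.ReflTransGen.refl
    by_cases h2 : a = t'
    · subst h2; exact Or.inl Relation.ReflTransGen.refl
    rcases ih with ih | ih
    · have hb : b ≠ t := by
        rintro rfl
        exact htt (tri_C_self ih)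
      exact Or.inl (Relation.ReflTransGen.head ⟨hab, h1, hb⟩ ih)
    · have hb : b ≠ t' := by
        rintro rfl
        exact htt (tri_C_self ih).symm
      exact Or.inr (Relation.ReflTransGen.head ⟨hab, h2, hb⟩ ih)

theorem tri_B {h : V → V → Prop} {t t' y a : V} (htt : t ≠ t')
    (H : tri_C h t y a) (ha : h a t) (hn : ¬ tri_C h t y t') : tri_C h t' y t := by
  have key : ∀ z, tri_C h t y z → tri_C h t' y z := by
    intro z hz
    unfold tri_C at hz
    induction hz with
    | refl => exact Relation.ReflTransGen.refl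
    | @tail b c hyb hbc ih =>
      have hb : b ≠ t' := by
        rintro rfl
        exact hn hyb
      have hc : c ≠ t' := by
        rintro rfl
        exact hn (Relation.ReflTransGen.tail hyb hbc)
      exact Relation.ReflTransGen.tail ih ⟨hbc.1, hb, hc⟩
  have ha' : a ≠ t' := by
    rintro rfl
    exact hn H
  exact Relation.ReflTransGen.tail (key a H) ⟨ha, ha', htt⟩

open Classical in
/-- the weight function of `t` with the branches `a`, `b` -/
noncomputable def tri_w (h : V → V → Prop) (Y : Finset V) (t a b : V) (z : V) : ℝ :=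
  ((Y.filter fun y => tri_C h t b y).card : ℝ) * (if tri_C h t a z then 1 else 0) -
    ((Y.filter fun y => tri_C h t a y).card : ℝ) * (if tri_C h t b z then 1 else 0)

theorem tri_w_congr {h : V → V → Prop} (hs : ∀ a b, h a b → h b a) (Y : Finset V) {t a b : V}
    {z z' : V} (H : tri_C h t z z') : tri_w h Y t a b z = tri_w h Y t a b z' := by
  have e1 : tri_C h t a z ↔ tri_C h t a z' :=
    ⟨fun x => tri_C_trans x H, fun x => tri_C_trans x (tri_C_symm hs H)⟩
  have e2 : tri_C h t b z ↔ tri_C h t b z' :=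
    ⟨fun x => tri_C_trans x H, fun x => tri_C_trans x (tri_C_symm hs H)⟩
  unfold tri_w
  by_cases h1 : tri_C h t a z <;> by_cases h2 : tri_C h t b z
  · rw [if_pos h1, if_pos h2, if_pos (e1.1 h1), if_pos (e2.1 h2)]
  · rw [if_pos h1, if_neg h2, if_pos (e1.1 h1), if_neg (fun x => h2 (e2.2 x))]
  · rw [if_neg h1, if_pos h2, if_neg (fun x => h1 (e1.2 x)), if_pos (e2.1 h2)]
  · rw [if_neg h1, if_neg h2, if_neg (fun x => h1 (e1.2 x)), if_neg (fun x => h2 (e2.2 x))]

open Classical in
theorem tri_w_sum {h : V → V → Prop} (Y : Finset V) {t a b : V} :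
    ∑ y ∈ Y, tri_w h Y t a b y = 0 := by
  unfold tri_w
  rw [Finset.sum_sub_distrib, ← Finset.mul_sum, ← Finset.mul_sum, Finset.sum_boole,
    Finset.sum_boole]
  ring

/-- `y` in the support. -/
theorem tri_w_supp {h : V → V → Prop} (Y : Finset V) {t a b y : V}
    (H : tri_w h Y t a b y ≠ 0) : tri_C h t a y ∨ tri_C h t b y := by
  by_contra hc
  push Not at hc
  apply H
  unfold tri_w
  simp [hc.1, hc.2]

open Classical in
theorem tri_w_pos {h : V → V → Prop} (hs : ∀ a b, h a b → h b a) (Y : Finset V) {t a b y y' : V}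
    (hab : ¬ tri_C h t a b) (hy : tri_C h t a y) (hy' : tri_C h t b y') (hYy' : y' ∈ Y) :
    tri_w h Y t a b y ≠ 0 := by
  have h1 : ¬ tri_C h t b y := fun hb => hab (tri_C_trans hy (tri_C_symm hs hb))
  unfold tri_w
  rw [if_pos hy, if_neg h1, mul_one, mul_zero, sub_zero]
  have hne : (Y.filter fun y => tri_C h t b y).Nonempty := ⟨y', by simp [hYy', hy']⟩
  exact_mod_cast (Finset.card_pos.2 hne).ne'

/-- The abstract counting lemma. -/
theorem tri_count {h : V → V → Prop} (hs : ∀ a b, h a b → h b a) (Y M : Finset V)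
    (H : ∀ t ∈ M, ∃ a : Fin 3 → V, (∀ i, h t (a i)) ∧ (∀ i, ∃ y ∈ Y, tri_C h t (a i) y) ∧
      ∀ i j, i ≠ j → ¬ tri_C h t (a i) (a j)) : M.card ≤ Y.card := by
  classical
  have hsC : ∀ {x y}, Relation.ReflTransGen h x y → Relation.ReflTransGen h y x := by
    intro x y hxy
    induction hxy with
    | refl => exact Relation.ReflTransGen.refl
    | tail _ hbc ih => exact Relation.ReflTransGen.head (hs _ _ hbc) ih
  rcases isEmpty_or_nonempty V with hV | hV
  · have : M = ∅ := by
      ext x; exact (hV.false x).elim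
    simp [this]
  -- the roots
  let ρ : V → V := fun t => Classical.epsilon (fun y => y ∈ Y ∧ Relation.ReflTransGen h t y)
  have hρ : ∀ t ∈ M, ρ t ∈ Y ∧ Relation.ReflTransGen h t (ρ t) := by
    intro t ht
    obtain ⟨a, ha, hb, hc⟩ := H t ht
    obtain ⟨y, hy, hy'⟩ := hb 0
    exact Classical.epsilon_spec (p := fun y => y ∈ Y ∧ Relation.ReflTransGen h t y)
      ⟨y, hy, Relation.ReflTransGen.head (ha 0) (tri_C_mono hy')⟩
  have hρ' : ∀ t t', Relation.ReflTransGen h t t' → ρ t = ρ t' := by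
    intro t t' htt
    have : (fun y => y ∈ Y ∧ Relation.ReflTransGen h t y) =
        (fun y => y ∈ Y ∧ Relation.ReflTransGen h t' y) := by
      funext y
      apply propext
      constructor
      · rintro ⟨h1, h2⟩; exact ⟨h1, (hsC htt).trans h2⟩
      · rintro ⟨h1, h2⟩; exact ⟨h1, htt.trans h2⟩
    show Classical.epsilon _ = Classical.epsilon _
    rw [this]
  -- two branches avoiding the root
  have hbr : ∀ t : {t // t ∈ M}, ∃ ab : V × V, h t ab.1 ∧ h t ab.2 ∧ (∃ y ∈ Y, tri_C h t ab.1 y) ∧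
      (∃ y ∈ Y, tri_C h t ab.2 y) ∧ ¬ tri_C h t ab.1 ab.2 ∧ ¬ tri_C h t ab.1 (ρ t) ∧
      ¬ tri_C h t ab.2 (ρ t) := by
    rintro ⟨t, ht⟩
    obtain ⟨a, ha, hb, hc⟩ := H t ht
    have key : ∀ i j, i ≠ j → ¬ (tri_C h t (a i) (ρ t) ∧ tri_C h t (a j) (ρ t)) := by
      rintro i j hij ⟨h1, h2⟩
      exact hc i j hij (tri_C_trans h1 (tri_C_symm hs h2))
    by_cases h0 : tri_C h t (a 0) (ρ t)
    · have h1 : ¬ tri_C h t (a 1) (ρ t) := fun hh => key 0 1 (by decide) ⟨h0, hh⟩
      have h2 : ¬ tri_C h t (a 2) (ρ t) := fun hh => key 0 2 (by decide) ⟨h0, hh⟩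
      exact ⟨(a 1, a 2), ha 1, ha 2, hb 1, hb 2, hc 1 2 (by decide), h1, h2⟩
    · by_cases h1 : tri_C h t (a 1) (ρ t)
      · have h2 : ¬ tri_C h t (a 2) (ρ t) := fun hh => key 1 2 (by decide) ⟨h1, hh⟩
        exact ⟨(a 0, a 2), ha 0, ha 2, hb 0, hb 2, hc 0 2 (by decide), h0, h2⟩
      · exact ⟨(a 0, a 1), ha 0, ha 1, hb 0, hb 1, hc 0 1 (by decide), h0, h1⟩
  choose ab hab1 hab2 hY1 hY2 hab hr1 hr2 using hbr
  -- the vectors
  let w : {t // t ∈ M} → V → ℝ := fun t => tri_w h Y t (ab t).1 (ab t).2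
  have hsupp : ∀ (t : {t // t ∈ M}) (y : V), w t y ≠ 0 → ∃ a, h t a ∧ tri_C h t a y ∧
      ¬ tri_C h t a (ρ t) := by
    intro t y hy
    rcases tri_w_supp Y hy with h1 | h1
    · exact ⟨_, hab1 t, h1, hr1 t⟩
    · exact ⟨_, hab2 t, h1, hr2 t⟩
  -- case 1
  have hcase : ∀ t t' : {t // t ∈ M}, t ≠ t' → Relation.ReflTransGen h t t' →
      tri_C h t (ρ t) t' → ∑ y ∈ Y, w t y * w t' y = 0 := by
    intro t t' htt _ hroot
    have hne : (t : V) ≠ t' := fun hh => htt (Subtype.ext hh)
    have hval : ∀ y ∈ Y, w t y * w t' y = w t y * w t' t := by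
      intro y _
      by_cases hy : w t y = 0
      · rw [hy, zero_mul, zero_mul]
      · obtain ⟨a, ha, hay, har⟩ := hsupp t y hy
        have hn : ¬ tri_C h t y t' := by
          intro hh
          exact har (tri_C_trans hay (tri_C_trans hh (tri_C_symm hs hroot)))
        have := tri_B hne (tri_C_symm hs hay) (hs _ _ ha) hn
        rw [show w t' y = w t' t from tri_w_congr hs Y this]
    rw [Finset.sum_congr rfl hval, ← Finset.sum_mul, tri_w_sum, zero_mul]
  have horth : ∀ t t' : {t // t ∈ M}, t ≠ t' → ∑ y ∈ Y, w t y * w t' y = 0 := by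
    intro t t' htt
    have hne : (t : V) ≠ t' := fun hh => htt (Subtype.ext hh)
    by_cases hcon : Relation.ReflTransGen h t t'
    · have hr : ρ t = ρ t' := hρ' _ _ hcon
      rcases tri_A hne (hsC (hρ t t.2).2) with h1 | h1
      · exact hcase t t' htt hcon h1
      · rw [Finset.sum_congr rfl (fun y _ => mul_comm (w t y) (w t' y))]
        exact hcase t' t (Ne.symm htt) (hsC hcon) (hr ▸ h1)
    · apply Finset.sum_eq_zero
      intro y _
      by_contra hy
      rw [mul_eq_zero, not_or] at hy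
      obtain ⟨a, ha, hay, _⟩ := hsupp t y hy.1
      obtain ⟨a', ha', hay', _⟩ := hsupp t' y hy.2
      exact hcon ((Relation.ReflTransGen.head ha (tri_C_mono hay)).trans
        (hsC (Relation.ReflTransGen.head ha' (tri_C_mono hay'))))
  have hnz : ∀ t : {t // t ∈ M}, ∃ y ∈ Y, w t y ≠ 0 := by
    intro t
    obtain ⟨y, hy, hy'⟩ := hY1 t
    obtain ⟨z, hz, hz'⟩ := hY2 t
    exact ⟨y, hy, tri_w_pos hs Y (hab t) hy' hz' hz⟩
  -- linear independence
  let vv : {t // t ∈ M} → EuclideanSpace ℝ {y // y ∈ Y} := fun t => WithLp.toLp 2 (fun y => w t y)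
  have hin : ∀ t t' : {t // t ∈ M}, inner ℝ (vv t) (vv t') = ∑ y ∈ Y, w t y * w t' y := by
    intro t t'
    rw [PiLp.inner_apply, ← Finset.sum_coe_sort Y (fun y => w t y * w t' y)]
    apply Finset.sum_congr rfl
    intro y _
    simp [vv, mul_comm]
  have hli : LinearIndependent ℝ vv := by
    apply linearIndependent_of_ne_zero_of_inner_eq_zero
    · intro t ht
      obtain ⟨y, hy, hy'⟩ := hnz t
      apply hy'
      have := congrArg (fun v : EuclideanSpace ℝ {y // y ∈ Y} => v ⟨y, hy⟩) ht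
      simpa [vv] using this
    · intro t t' htt
      show inner ℝ (vv t) (vv t') = 0
      rw [hin]
      exact horth t t' htt
  have := hli.fintype_card_le_finrank
  simpa using this

end Abstract

section Lattice

variable {d : ℕ}

theorem tri_nrm_le {x : Fin d → ℤ} {m : ℕ} : nrm x ≤ m ↔ ∀ i, (x i).natAbs ≤ m := by
  unfold nrm
  simp

theorem tri_mem_sph {x : Fin d → ℤ} {m : ℕ} : x ∈ sph d m ↔ nrm x = m := by
  unfold sph
  simp only [Finset.mem_filter, Finset.mem_Icc, and_iff_right_iff_imp]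
  intro hx
  have h1 := (tri_nrm_le (x := x) (m := m)).1 hx.le
  constructor
  · intro i
    have := h1 i
    show -(m : ℤ) ≤ x i
    omega
  · intro i
    have := h1 i
    show x i ≤ (m : ℤ)
    omega

theorem tri_finite_box (d m : ℕ) : {x : Fin d → ℤ | nrm x ≤ m}.Finite := by
  apply (Set.finite_Icc (fun _ : Fin d => -(m : ℤ)) (fun _ => (m : ℤ))).subset
  intro x hx
  have h1 := (tri_nrm_le (x := x) (m := m)).1 hx
  refine ⟨fun i => ?_, fun i => ?_⟩
  · have := h1 i
    show -(m : ℤ) ≤ x i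
    omega
  · have := h1 i
    show x i ≤ (m : ℤ)
    omega

theorem tri_adj {e : Ed d} {x y : Fin d → ℤ} (h : le e = s(x, y)) : nrm y ≤ nrm x + 1 := by
  have he : s(x, y) ∈ (lat d).edgeSet := by
    rw [← h]; exact e.2
  have ha : ∑ i, |x i - y i| = 1 := (SimpleGraph.mem_edgeSet _).1 he
  rw [tri_nrm_le]
  intro i
  have h1 : |x i - y i| ≤ 1 := by
    rw [← ha]
    exact Finset.single_le_sum (f := fun i => |x i - y i|) (fun j _ => abs_nonneg _)
      (Finset.mem_univ i)
  have h2 := (tri_nrm_le (x := x) (m := nrm x)).1 le_rfl i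
  rw [abs_le] at h1
  omega

/-- the open edges touching the box -/
def tri_h (ω : Cfg d) (n : ℕ) (x y : Fin d → ℤ) : Prop :=
  (∃ e : Ed d, ω e = true ∧ le e = s(x, y)) ∧ (nrm x ≤ n ∨ nrm y ≤ n)

theorem tri_h_symm (ω : Cfg d) (n : ℕ) (x y : Fin d → ℤ) (H : tri_h ω n x y) :
    tri_h ω n y x := by
  obtain ⟨⟨e, he, he'⟩, hb⟩ := H
  exact ⟨⟨e, he, by rw [he', Sym2.eq_swap]⟩, hb.symm⟩

theorem tri_clo {t x y : Fin d → ℤ} {ω : Cfg d} {e : Ed d} (h : clo t ω e = true)
    (he : le e = s(x, y)) : ω e = true ∧ x ≠ t ∧ y ≠ t := by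
  unfold clo at h
  by_cases ht : t ∈ le e
  · simp [ht] at h
  · simp only [ht, if_false] at h
    refine ⟨h, ?_, ?_⟩
    · rintro rfl
      exact ht (by rw [he]; exact Sym2.mem_mk_left _ _)
    · rintro rfl
      exact ht (by rw [he]; exact Sym2.mem_mk_right _ _)

theorem tri_clo' {t x y : Fin d → ℤ} {ω : Cfg d} {e : Ed d} (h : ω e = true)
    (he : le e = s(x, y)) (hx : x ≠ t) (hy : y ≠ t) : clo t ω e = true := by
  unfold clo
  have ht : t ∉ le e := by
    rw [he, Sym2.mem_iff]
    rintro (h1 | h1)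
    · exact hx h1.symm
    · exact hy h1.symm
  simp [ht, h]

theorem tri_C_LConn {ω : Cfg d} {n : ℕ} {t x y : Fin d → ℤ} (H : tri_C (tri_h ω n) t x y) :
    LConn (clo t ω) x y := by
  refine tri_mono ?_ H
  rintro a b ⟨⟨⟨e, he, he'⟩, _⟩, ha, hb⟩
  exact ⟨e, tri_clo' he he' ha hb, he'⟩

theorem tri_reach {ω : Cfg d} {n : ℕ} {t z : Fin d → ℤ} (hz : n + 1 ≤ nrm z) {a : Fin d → ℤ}
    (H : LConn (clo t ω) a z) : nrm a ≤ n + 1 →
    ∃ y, nrm y = n + 1 ∧ tri_C (tri_h ω n) t a y := by
  unfold LConn Conn at H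
  induction H using Relation.ReflTransGen.head_induction_on with
  | refl =>
    intro h
    exact ⟨z, le_antisymm h hz, Relation.ReflTransGen.refl⟩
  | @head a b hab _ ih =>
    intro ha
    by_cases h1 : nrm a = n + 1
    · exact ⟨a, h1, Relation.ReflTransGen.refl⟩
    · obtain ⟨e, he, he'⟩ := hab
      obtain ⟨h2, h3, h4⟩ := tri_clo he he'
      have hb := tri_adj he'
      obtain ⟨y, hy, hy'⟩ := ih (by omega)
      exact ⟨y, hy, Relation.ReflTransGen.head ⟨⟨⟨e, h2, he'⟩, Or.inl (by omega)⟩, h3, h4⟩ hy'⟩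

theorem st_TRI : ST_TRI := by
  intro d _ ω n M hM
  apply tri_count (h := tri_h ω n) (tri_h_symm ω n) (sph d (n + 1)) M
  · intro t ht
    obtain ⟨hn, a, ha, hb, hc⟩ := hM t ht
    refine ⟨a, ?_, ?_, ?_⟩
    · intro i
      obtain ⟨e, he, he'⟩ := ha i
      exact ⟨⟨e, he, he'⟩, Or.inl hn⟩
    · intro i
      obtain ⟨e, he, he'⟩ := ha i
      have h1 := tri_adj he'
      obtain ⟨z, hz, hz'⟩ : ∃ z, LConn (clo t ω) (a i) z ∧ n + 1 ≤ nrm z := by
        by_contra hcon
        push Not at hcon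
        apply hb i
        apply (tri_finite_box d (n + 1)).subset
        intro z hz
        exact (hcon z hz).le
      obtain ⟨y, hy, hy'⟩ := tri_reach hz' hz (by omega)
      exact ⟨y, tri_mem_sph.2 hy, hy'⟩
    · intro i j hij hh
      exact hc i j hij (tri_C_LConn hh)

end Lattice

end IIC
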